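import Pool.Agent.Helper54.FP.TDefs
import Pool.Agent.Helper54.SL.Defs

/-!
# Definitions for the inertia conjecture for `A_{p+1}`: the two explicit covers
-/

set_option autoImplicit false

namespace Pool.Agent.Helper54.TJ

open Pool.Agent.Helper54.PW Pool.Agent.Helper54.SL

/-- the exponent of the trinomial -/
def tN (p : ℕ) : ℕ := 2 * (p - 2) * (p - 1)

/-- roots of the trinomial `Y^2 = x^N (1 + Y)^p` -/
def TR (p : ℕ) {L : Type} [Field L] (x y : L) : Prop := y ^ 2 = x ^ tN p * (1 + y) ^ p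

/-- elements of the prime field as elements of `L ⊇ k(X)` -/
noncomputable def cz (p : ℕ) (k L : Type) [Field k] [CharP k p] [Field L] [Algebra (RatFunc k) L]
    (a : ZMod p) : L :=
  algebraMap (RatFunc k) L (algebraMap k (RatFunc k) (ZMod.castHom (dvd_refl p) k a))

/-- `L` is the splitting field of `Y^(p^2) - X^e Y^p + Y` over `k(X)`, with group `SL_2(F_p)` -/
def SLCov (p : ℕ) (k L : Type) [Field k] [CharP k p] [Field L] [Algebra (RatFunc k) L] (e : ℕ)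
    (y0 y1 : L) (ρ : (L ≃ₐ[RatFunc k] L) →* Matrix.SpecialLinearGroup (Fin 2) (ZMod p)) : Prop :=
  FiniteDimensional (RatFunc k) L ∧ IsGalois (RatFunc k) L ∧ Rt p (tX k L ^ e) y0 ∧
    Rt p (tX k L ^ e) y1 ∧ dd p y0 y1 = 1 ∧ IntermediateField.adjoin (RatFunc k) {y0, y1} = ⊤ ∧
    Function.Bijective ρ ∧
    ∀ σ : L ≃ₐ[RatFunc k] L,
      σ y0 = cz p k L ((ρ σ).1 0 0) * y0 + cz p k L ((ρ σ).1 1 0) * y1 ∧
      σ y1 = cz p k L ((ρ σ).1 0 1) * y0 + cz p k L ((ρ σ).1 1 1) * y1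

/-- the matrix `(1 1; 0 1)` -/
def U1 (p : ℕ) : Matrix.SpecialLinearGroup (Fin 2) (ZMod p) :=
  ⟨!![1, 1; 0, 1], by simp [Matrix.det_fin_two]⟩

/-- the matrix `(b 0; 0 1/b)` -/
def Db (p : ℕ) (b : (ZMod p)ˣ) : Matrix.SpecialLinearGroup (Fin 2) (ZMod p) :=
  ⟨!![(b : ZMod p), 0; 0, ((b⁻¹ : (ZMod p)ˣ) : ZMod p)], by simp [Matrix.det_fin_two]⟩

end Pool.Agent.Helper54.TJ
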