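import Pool.Agent.Helper54.TJ.Defs
import Pool.Agent.Helper54.PW.Final

set_option autoImplicit false
set_option linter.unusedVariables false
set_option linter.unusedSectionVars false
open scoped Pointwise

namespace Pool.Agent.Helper54.TJ

open Pool.Agent.Helper54.PW Pool.Agent.Helper54.SL Pool.Agent.Helper54.FP

/-! ## TRI: the trinomial cover with group `A_p` -/
section TRI
variable {p : ℕ} [Fact p.Prime] {k : Type} [Field k] [IsAlgClosed k] [CharP k p]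

/-! ### TRI-01 -/
theorem tri_exists (hp5 : 5 ≤ p) (k : Type) [Field k] [IsAlgClosed k] [CharP k p] :
    ∃ (L : Type) (_ : Field L) (_ : Algebra (RatFunc k) L), FiniteDimensional (RatFunc k) L ∧
      IsGalois (RatFunc k) L ∧ ∃ r : Fin p → L, Function.Injective r ∧
        (∀ i, TR p (tX k L) (r i)) ∧ (∀ y : L, TR p (tX k L) y → ∃ i, y = r i) ∧
        IntermediateField.adjoin (RatFunc k) (Set.range r) = ⊤ ∧ ∏ i, r i = -1 ∧
        ∀ i, -2 * r i = tX k L ^ tN p * ∏ j ∈ Finset.univ.erase i, (r i - r j) := sorry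

variable {L : Type} [Field L] [Algebra (RatFunc k) L] [FiniteDimensional (RatFunc k) L]
  [IsGalois (RatFunc k) L] (r : Fin p → L) (hinj : Function.Injective r)
  (hroot : ∀ i, TR p (tX k L) (r i)) (hall : ∀ y : L, TR p (tX k L) y → ∃ i, y = r i)
  (hgen : IntermediateField.adjoin (RatFunc k) (Set.range r) = ⊤) (hprod : ∏ i, r i = -1)
  (hder : ∀ i, -2 * r i = tX k L ^ tN p * ∏ j ∈ Finset.univ.erase i, (r i - r j))

/-! ### TRI-02 -/
include hinj hroot hall hgen in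
theorem tri_perm (hp5 : 5 ≤ p) : ∃ ρ : (L ≃ₐ[RatFunc k] L) →* Equiv.Perm (Fin p),
    Function.Injective ρ ∧ ∀ σ i, σ (r i) = r (ρ σ i) := sorry

/-! ### TRI-03 -/
include hinj hprod hder in
theorem tri_even (hp5 : 5 ≤ p) (σ : L ≃ₐ[RatFunc k] L) (π : Equiv.Perm (Fin p))
    (hπ : ∀ i, σ (r i) = r (π i)) : Equiv.Perm.sign π = 1 := sorry

/-! ### TRI-04: finite places -/
include hinj hroot in
theorem tri_finite (hp5 : 5 ≤ p) [Algebra k L] [IsScalarTower k (RatFunc k) L] (hF : FF k L)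
    (A : ValuationSubring L) (hA : IsPlace k A) (hX : tX k L ∈ A) (σ : L ≃ₐ[RatFunc k] L)
    (hσ : σ • A = A) (hσr : ∀ i, ∃ j, σ (r i) = r j) (i : Fin p) : σ (r i) = r i := sorry

/-! ### TRI-05: the place at infinity -/
include hinj hroot in
theorem tri_inf_stab (hp5 : 5 ≤ p) [Algebra k L] [IsScalarTower k (RatFunc k) L] (hF : FF k L)
    (A : ValuationSubring L) (hA : IsPlace k A) (hX : tX k L ∉ A) (σ : L ≃ₐ[RatFunc k] L)
    (hσ : σ • A = A) (hσr : ∀ i, ∃ j, σ (r i) = r j) (i0 : Fin p) (h0 : σ (r i0) = r i0)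
    (i : Fin p) : σ (r i) = r i := sorry

/-! ### TRI-06 -/
include hinj hroot hall in
theorem tri_inf_trans (hp5 : 5 ≤ p) [Algebra k L] [IsScalarTower k (RatFunc k) L] (hF : FF k L)
    (A : ValuationSubring L) (hA : IsPlace k A) (hX : tX k L ∉ A) (i j : Fin p) :
    ∃ σ : L ≃ₐ[RatFunc k] L, σ • A = A ∧ σ (r i) = r j := sorry

/-! ### TRI-07: a semilinear automorphism which is a transposition on the roots -/
include hinj hroot hall hgen in
theorem tri_swap (hp5 : 5 ≤ p) : ∃ (δ : L ≃+* L) (s : Equiv.Perm (Fin p)), s.IsSwap ∧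
    (∀ i, δ (r i) = r (s i)) ∧
    ∀ σ : L ≃ₐ[RatFunc k] L, ∃ σ' : L ≃ₐ[RatFunc k] L, ∀ y, σ' y = δ (σ (δ.symm y)) := sorry

/-! ### TRI-08 -/
theorem tri_group (hp5 : 5 ≤ p) (H : Subgroup (Equiv.Perm (Fin p)))
    (htrans : ∀ i j, ∃ g ∈ H, g i = j) (s : Equiv.Perm (Fin p)) (hs : s.IsSwap)
    (hnorm : ∀ g ∈ H, s * g * s⁻¹ ∈ H) : alternatingGroup (Fin p) ≤ H := sorry
end TRI

/-! ## SLT: the `SL_2(p)`-covers with tame inertia -/
section SLT
variable {p : ℕ} [Fact p.Prime] {k : Type} [Field k] [IsAlgClosed k] [CharP k p]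

/-! ### SLT-01 -/
theorem slt_base (hp5 : 5 ≤ p) (k : Type) [Field k] [IsAlgClosed k] [CharP k p] :
    ∃ (L : Type) (_ : Field L) (_ : Algebra (RatFunc k) L) (y0 y1 : L)
      (ρ : (L ≃ₐ[RatFunc k] L) →* Matrix.SpecialLinearGroup (Fin 2) (ZMod p)),
      SLCov p k L (p - 1) y0 y1 ρ := sorry

/-! ### SLT-02 -/
theorem slt_tame (hp5 : 5 ≤ p) (k : Type) [Field k] [IsAlgClosed k] [CharP k p] (e m : ℕ)
    (hem : e * m = p - 1) :
    ∃ (L : Type) (_ : Field L) (_ : Algebra (RatFunc k) L) (y0 y1 : L)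
      (ρ : (L ≃ₐ[RatFunc k] L) →* Matrix.SpecialLinearGroup (Fin 2) (ZMod p)),
      SLCov p k L e y0 y1 ρ := sorry

variable {L : Type} [Field L] [Algebra (RatFunc k) L] {e : ℕ} {y0 y1 : L}
  {ρ : (L ≃ₐ[RatFunc k] L) →* Matrix.SpecialLinearGroup (Fin 2) (ZMod p)}

/-! ### SLT-03 -/
theorem slt_finite (h : SLCov p k L e y0 y1 ρ) (A : ValuationSubring L) (hA : A ≠ ⊤)
    (hAk : ∀ c : k, algebraMap (RatFunc k) L (algebraMap k (RatFunc k) c) ∈ A) (hX : tX k L ∈ A)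
    (σ : L ≃ₐ[RatFunc k] L) (hσ : σ • A = A) : σ = 1 := sorry

/-! ### SLT-04 -/
theorem slt_series (hp5 : 5 ≤ p) (k : Type) [Field k] [IsAlgClosed k] [CharP k p] :
    ∃ q ε : LaurentSeries k, q ≠ 0 ∧
      q ^ (p ^ 2) - HahnSeries.single (-((p : ℤ) - 1)) (1 : k) * q ^ p + q = 0 ∧
      (q⁻¹) ^ (p + 1) = HahnSeries.single (-((p : ℤ) + 1)) (1 : k) + (ε ^ p - ε) ∧
      ∀ ζ : kˣ, (ζ : k) ^ (p - 1) = 1 → sg ζ q = HahnSeries.C ((ζ⁻¹ : kˣ) : k) * q ∧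
        sg ζ ε = HahnSeries.C ((ζ : k) ^ 2) * ε := sorry

/-! ### SLT-05 -/
theorem slt_local (hp5 : 5 ≤ p) (h : SLCov p k L e y0 y1 ρ) {m : ℕ} (hem : e * m = p - 1)
    (hm : 0 < m) :
    ∃ (Ω : Type) (_ : Field Ω) (i : LaurentSeries k →+* Ω) (j : L →+* Ω) (u : Ω)
      (q ε : LaurentSeries k), (∀ r : RatFunc k, j (algebraMap (RatFunc k) L r) = i (rxm k m hm r)) ∧
      u ^ p - u = i (px k (Polynomial.X ^ (p + 1))) ∧ j y0 = i q ∧ j y1 = i q * (u + i ε) ∧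
      ∀ ζ : kˣ, (ζ : k) ^ (p - 1) = 1 → sg ζ q = HahnSeries.C ((ζ⁻¹ : kˣ) : k) * q ∧
        sg ζ ε = HahnSeries.C ((ζ : k) ^ 2) * ε := sorry

/-! ### SLT-06 -/
theorem slt_hloc (hp5 : 5 ≤ p) (h : SLCov p k L e y0 y1 ρ) {m : ℕ} (hem : e * m = p - 1)
    (hm : 0 < m) {Ω : Type} [Field Ω] (i : LaurentSeries k →+* Ω) (j : L →+* Ω) (u : Ω)
    (q ε : LaurentSeries k) (hj : ∀ r : RatFunc k, j (algebraMap (RatFunc k) L r) = i (rxm k m hm r))
    (h0 : j y0 = i q) (h1 : j y1 = i q * (u + i ε))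
    (hsg : ∀ ζ : kˣ, (ζ : k) ^ (p - 1) = 1 → sg ζ q = HahnSeries.C ((ζ⁻¹ : kˣ) : k) * q ∧
        sg ζ ε = HahnSeries.C ((ζ : k) ^ 2) * ε) (b : (ZMod p)ˣ) (ζ : kˣ)
    (hζ : (ζ : k) = ZMod.castHom (dvd_refl p) k ((b⁻¹ : (ZMod p)ˣ) : ZMod p)) (l : ℕ)
    (hl : (l : ZMod p) = ((b⁻¹ : (ZMod p)ˣ) : ZMod p) ^ 2) (hζm : (ζ : k) ^ m = 1)
    (τ β : L ≃ₐ[RatFunc k] L) (hτ : ρ τ = U1 p) (hβ : ρ β = Db p b) (y : L) :
    ∃ P : Polynomial (LaurentSeries k), j y = P.eval₂ i u ∧ j (τ y) = P.eval₂ i (u + 1) ∧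
      j (β y) = (P.map (sg ζ)).eval₂ i ((l : Ω) * u) := sorry
end SLT

/-! ## GTA: group theory in `A_{p+1}` -/
section GTA
variable {p : ℕ} [Fact p.Prime]

/-! ### GTA-01: the projective line -/
theorem gta_kappa (hp5 : 5 ≤ p) : ∃ κ : Matrix.SpecialLinearGroup (Fin 2) (ZMod p) →*
      alternatingGroup (Fin (p + 1)), orderOf (κ (U1 p)) = p ∧
      ((κ (U1 p) : alternatingGroup (Fin (p + 1))) : Equiv.Perm (Fin (p + 1))) (Fin.last p) =
        Fin.last p ∧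
      ∀ a b : Fin (p + 1), ∃ g,
        ((κ g : alternatingGroup (Fin (p + 1))) : Equiv.Perm (Fin (p + 1))) a = b := sorry

/-! ### GTA-02: classification of the admissible subgroups -/
theorem gta_class (hp5 : 5 ≤ p) (U : alternatingGroup (Fin (p + 1))) (hU : orderOf U = p)
    (D : (ZMod p)ˣ → alternatingGroup (Fin (p + 1)))
    (hD : ∀ b, D b * U * (D b)⁻¹ = U ^ ((b ^ 2 : (ZMod p)ˣ) : ZMod p).val)
    (I : Subgroup (alternatingGroup (Fin (p + 1))))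
    (hI : ∃ P : Subgroup (alternatingGroup (Fin (p + 1))), ∃ g ∈ I,
      P ≤ I ∧ Nat.card P = p ∧ (∀ x ∈ I, ∀ y ∈ P, x * y * x⁻¹ ∈ P) ∧
      ∀ x ∈ I, ∃ n : ℤ, ∃ y ∈ P, x = g ^ n * y) :
    ∃ (e : alternatingGroup (Fin (p + 1)) ≃* alternatingGroup (Fin (p + 1))) (b : (ZMod p)ˣ),
      (Subgroup.closure {U, D b}).map e.toMonoidHom = I := sorry

/-! ### GTA-03: transport of the cover with group `A_p` to the stabilizer of a point -/
theorem gta_stab {k : Type} [Field k] (hp5 : 5 ≤ p) (τ : alternatingGroup (Fin p))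
    (hτ : orderOf τ = p) (h : RealAct k (Subgroup.zpowers τ))
    (U : alternatingGroup (Fin (p + 1))) (hU : orderOf U = p)
    (hfix : (U : Equiv.Perm (Fin (p + 1))) (Fin.last p) = Fin.last p) :
    RealAct k ((Subgroup.zpowers U).subgroupOf
      (MulAction.stabilizer (alternatingGroup (Fin (p + 1))) (Fin.last p))) := sorry
end GTA

/-! ## FRZ-01: the frozen form -/
theorem frozen_form {k : Type} [Field k] [IsAlgClosed k] {G : Type} [Group G] [Finite G]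
    (I : Subgroup G) (h : RealAct k I) :
    ∃ (L : Type) (_ : Field L) (_ : Algebra (RatFunc k) L),
      FiniteDimensional (RatFunc k) L ∧ IsGalois (RatFunc k) L ∧
      ∃ φ : (L ≃ₐ[RatFunc k] L) ≃* G,
        (∀ (Γ : Type) (_ : LinearOrderedCommGroupWithZero Γ) (w : Valuation L Γ),
          (∀ c : k, c ≠ 0 →
            w (algebraMap (RatFunc k) L (algebraMap k (RatFunc k) c)) = 1) →
          w (algebraMap (RatFunc k) L RatFunc.X) ≤ 1 →
          ∀ σ : L ≃ₐ[RatFunc k] L, (∀ a : L, w a ≤ 1 → w (σ a - a) < 1) → σ = 1) ∧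
        ∃ (Γ : Type) (_ : LinearOrderedCommGroupWithZero Γ) (w : Valuation L Γ),
          (∀ c : k, c ≠ 0 →
            w (algebraMap (RatFunc k) L (algebraMap k (RatFunc k) c)) = 1) ∧
          1 < w (algebraMap (RatFunc k) L RatFunc.X) ∧
          ∀ σ : L ≃ₐ[RatFunc k] L,
            (φ σ ∈ I ↔ ∀ a : L, w a ≤ 1 → w (σ a - a) < 1) := sorry

end Pool.Agent.Helper54.TJ
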